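import Mathlib

/-!
Algebraic core of the non-existence of dilations: a pair of commuting endomorphisms dilating
two group type Kraus maps forces a braiding relation between intertwiners, and three such
pairs force a cubic compatibility of the braidings.
-/

set_option autoImplicit false
set_option linter.unusedSectionVars false

namespace Pool.Agent.V11111.Dil

open Matrix

variable {G : Type*} [Group G] [Fintype G] [DecidableEq G]

/-- The left translation matrix of `g`. -/
def lam (g : G) : Matrix G G ℂ := Matrix.of fun i j => if i = g * j then 1 else 0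

lemma lam_apply (g i j : G) : lam g i j = if i = g * j then 1 else 0 := rfl

lemma lam_mul (g h : G) : lam g * lam h = lam (g * h) := by
  ext i j
  simp only [Matrix.mul_apply, lam_apply]
  rw [Finset.sum_eq_single (h * j)]
  · simp [mul_assoc]
  · intro b _ hb
    simp [hb]
  · simp

lemma lam_one : lam (1 : G) = 1 := by
  ext i j
  simp [lam_apply, Matrix.one_apply]

lemma lam_conj (g : G) : (lam g)ᴴ = lam g⁻¹ := by
  ext i j
  simp only [Matrix.conjTranspose_apply, lam_apply]
  by_cases h : j = g * i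
  · subst h; simp
  · have : ¬ (i = g⁻¹ * j) := by
      intro h'
      apply h
      rw [h']; simp
    simp [h, this]

/-- The Kraus map of a pair of group elements. -/
noncomputable def kr (X : Fin 2 → G) (a : Matrix G G ℂ) : Matrix G G ℂ :=
  (1 / 2 : ℂ) • ∑ j, (lam (X j))ᴴ * a * lam (X j)

lemma kr_one (X : Fin 2 → G) : kr X 1 = 1 := by
  have h : ∀ j, (lam (X j))ᴴ * (1 : Matrix G G ℂ) * lam (X j) = 1 := by
    intro j; rw [mul_one, lam_conj, lam_mul]; simp [lam_one]
  unfold kr
  rw [Finset.sum_congr rfl fun j _ => h j, Fin.sum_univ_two, ← two_smul ℂ, smul_smul]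
  norm_num

lemma kr_kr (X Y : Fin 2 → G) (a : Matrix G G ℂ) :
    kr X (kr Y a) = (1 / 4 : ℂ) • ∑ q : Fin 2 × Fin 2,
      (lam (Y q.2 * X q.1))ᴴ * a * lam (Y q.2 * X q.1) := by
  unfold kr
  simp only [Fin.sum_univ_two, Fintype.sum_prod_type, ← lam_mul, conjTranspose_mul, smul_add,
    mul_add, add_mul, mul_assoc, mul_smul_comm, smul_mul_assoc, smul_smul]
  norm_num

/-- two pairs braid -/
structure Braid (X Y : Fin 2 → G) : Prop where
  inj : ∀ b a b' a', Y b * X a = Y b' * X a' → b = b' ∧ a = a'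
  inj' : ∀ a b a' b', X a * Y b = X a' * Y b' → a = a' ∧ b = b'
  ex : ∀ a b, ∃ b' a', X a * Y b = Y b' * X a'

lemma kr_comm (X Y : Fin 2 → G) (h : Braid X Y) (a : Matrix G G ℂ) :
    kr X (kr Y a) = kr Y (kr X a) := by
  rw [kr_kr, kr_kr]
  congr 1
  have hex : ∀ q : Fin 2 × Fin 2, ∃ r : Fin 2 × Fin 2, X q.1 * Y q.2 = Y r.1 * X r.2 := by
    rintro ⟨a, b⟩
    obtain ⟨b', a', h'⟩ := h.ex a b
    exact ⟨(b', a'), h'⟩
  choose f hf using hex
  have hinj : Function.Injective f := by
    intro q r hqr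
    have h1 := hf q
    rw [hqr, ← hf r] at h1
    have := h.inj' _ _ _ _ h1
    exact Prod.ext this.1 this.2
  have hbij : Function.Bijective f := (Finite.injective_iff_bijective).1 hinj
  symm
  refine Fintype.sum_bijective (fun q => (f (q.2, q.1)).swap) ?_ _ _ ?_
  · exact (Prod.swap_bijective).comp (hbij.comp Prod.swap_bijective)
  · intro q
    simp only [Prod.swap]
    have := hf (q.2, q.1)
    simp only at this
    rw [this]

variable {R : Type*} [Ring R] [StarRing R] [Algebra ℂ R] [StarModule ℂ R]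

/-- System of intertwiners of an endomorphism. -/
structure IS (ι : Matrix G G ℂ →⋆ₙₐ[ℂ] R) (θ : R →⋆ₙₐ[ℂ] R) (X : Fin 2 → G)
    (e : Fin 2 → R) : Prop where
  tw : ∀ a j, θ (ι a) * e j = e j * ι a
  on : ∀ i j, star (e i) * e j = if i = j then ι 1 else 0
  ab : ∀ j, e j * ι 1 = e j
  su : ι 1 = ∑ j, (1 / (Real.sqrt 2 : ℂ)) • (e j * ι (lam (X j)))

/-- The intertwiner attached to `x`. -/
noncomputable def ev (ι : Matrix G G ℂ →⋆ₙₐ[ℂ] R) (θ : R →⋆ₙₐ[ℂ] R) (x : G) : R :=
  (Real.sqrt 2 : ℂ) • ∑ k : G, θ (ι (Matrix.single k x 1)) * ι (Matrix.single 1 k 1)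

lemma exists_IS (ι : Matrix G G ℂ →⋆ₙₐ[ℂ] R) (θ : R →⋆ₙₐ[ℂ] R) (X : Fin 2 → G)
    (hX : Function.Injective X)
    (hprop : ∀ x : R, star x * x = 0 → x = 0)
    (hT : ∀ a, ι 1 * θ (ι a) * ι 1 = ι (kr X a)) :
    IS ι θ X (fun j => ev ι θ (X j)) := by
  have hs : (Real.sqrt 2 : ℂ) * (Real.sqrt 2 : ℂ) = 2 := by
    rw [← Complex.ofReal_mul, Real.mul_self_sqrt (by norm_num)]; norm_num
  have hs0 : (Real.sqrt 2 : ℂ) ≠ 0 := by
    intro h; rw [h] at hs; norm_num at hs
  have h1l : ∀ a : Matrix G G ℂ, ι 1 * ι a = ι a := by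
    intro a; rw [← map_mul, one_mul]
  have h1r : ∀ a : Matrix G G ℂ, ι a * ι 1 = ι a := by
    intro a; rw [← map_mul, mul_one]
  have hss : star (Real.sqrt 2 : ℂ) = (Real.sqrt 2 : ℂ) := by simp
  have hst : ∀ x, star (ev ι θ x) = (Real.sqrt 2 : ℂ) • ∑ k : G,
      ι (Matrix.single k 1 1) * θ (ι (Matrix.single x k 1)) := by
    intro x
    unfold ev
    rw [star_smul, star_sum, hss]
    congr 1
    refine Finset.sum_congr rfl fun k _ => ?_
    rw [star_mul, ← map_star, ← map_star, ← map_star, Matrix.star_eq_conjTranspose,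
      Matrix.star_eq_conjTranspose, Matrix.conjTranspose_single, Matrix.conjTranspose_single]
    simp
  have hab : ∀ x, ev ι θ x * ι 1 = ev ι θ x := by
    intro x
    unfold ev
    rw [smul_mul_assoc, Finset.sum_mul]
    congr 1
    refine Finset.sum_congr rfl fun k _ => ?_
    rw [mul_assoc, h1r]
  have hkey : ∀ b k l, ι (Matrix.single k 1 1) * θ (ι b) * ι (Matrix.single 1 l 1)
      = ι (Matrix.single k 1 1 * kr X b * Matrix.single 1 l 1) := by
    intro b k l
    rw [map_mul, map_mul, ← hT b, ← mul_assoc, ← mul_assoc, h1r, mul_assoc _ (ι 1) (ι _), h1l]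
  have hon : ∀ x y : G, star (ev ι θ x) * ev ι θ y = (2 * kr X (Matrix.single x y 1) 1 1) • ι 1 := by
    intro x y
    rw [hst, ev, smul_mul_assoc, mul_smul_comm, smul_smul, hs, Finset.sum_mul_sum]
    have : ∀ k ∈ (Finset.univ : Finset G), ∑ l : G,
        (ι (Matrix.single k 1 1) * θ (ι (Matrix.single x k 1))) *
        (θ (ι (Matrix.single l y 1)) * ι (Matrix.single 1 l 1))
        = (kr X (Matrix.single x y 1) 1 1) • ι (Matrix.single k k 1) := by
      intro k _
      rw [Finset.sum_eq_single k]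
      · rw [mul_assoc, ← mul_assoc (θ _) (θ _), ← map_mul, ← map_mul,
          Matrix.single_mul_single_same, ← mul_assoc, mul_one, hkey, ← map_smul]
        congr 1
        rw [Matrix.single_mul_mul_single]
        simp
      · intro l _ hl
        rw [mul_assoc, ← mul_assoc (θ _) (θ _), ← map_mul, ← map_mul,
          Matrix.single_mul_single_of_ne _ _ _ _ (Ne.symm hl)]
        simp
      · simp
    rw [Finset.sum_congr rfl this, ← Finset.smul_sum, smul_smul, ← map_sum]
    congr 2
    ext i j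
    rw [Matrix.sum_apply]
    by_cases h : i = j
    · subst h
      rw [Finset.sum_eq_single i]
      · simp
      · intro b _ hb
        rw [Matrix.single_apply, if_neg (fun h => hb h.1)]
      · simp
    · rw [Finset.sum_eq_zero, Matrix.one_apply_ne h]
      intro c _
      rw [Matrix.single_apply, if_neg]
      rintro ⟨rfl, rfl⟩
      exact h rfl
  have hval : ∀ i j, kr X (Matrix.single (X i) (X j) 1) 1 1 = if i = j then 1 / 2 else 0 := by
    intro i j
    unfold kr
    rw [Matrix.smul_apply, Matrix.sum_apply]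
    have : ∀ c ∈ (Finset.univ : Finset (Fin 2)),
        ((lam (X c))ᴴ * Matrix.single (X i) (X j) (1 : ℂ) * lam (X c)) 1 1
        = if c = i then (if c = j then (1 : ℂ) else 0) else 0 := by
      intro c _
      rw [Matrix.mul_apply, Finset.sum_eq_single (X c)]
      · rw [Matrix.mul_apply, Finset.sum_eq_single (X c)]
        · rw [Matrix.conjTranspose_apply, lam_apply, Matrix.single_apply]
          by_cases h1 : c = i
          · by_cases h2 : c = j
            · simp [h1, ← h2]
            · have : ¬ (X j = X c) := fun h => h2 (hX h.symm)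
              simp [h2, this]
          · have : ¬ (X i = X c) := fun h => h1 (hX h.symm)
            simp [h1, this]
        · intro b _ hb
          rw [Matrix.conjTranspose_apply, lam_apply]
          simp [hb]
        · simp
      · intro b _ hb
        rw [lam_apply]
        simp [hb]
      · simp
    rw [Finset.sum_congr rfl this]
    by_cases h : i = j
    · subst h; simp
    · simp [h]
  refine ⟨?_, ?_, fun j => hab (X j), ?_⟩
  · intro a j
    unfold ev
    rw [mul_smul_comm, smul_mul_assoc]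
    congr 1
    rw [Finset.mul_sum, Finset.sum_mul]
    have e1 : ∀ k ∈ (Finset.univ : Finset G), θ (ι a) * (θ (ι (Matrix.single k (X j) 1)) *
        ι (Matrix.single 1 k 1)) = ∑ i : G, a i k • (θ (ι (Matrix.single i (X j) 1)) *
        ι (Matrix.single 1 k 1)) := by
      intro k _
      rw [← mul_assoc, ← map_mul, ← map_mul]
      have : a * Matrix.single k (X j) 1 = ∑ i : G, a i k • Matrix.single i (X j) 1 := by
        ext r s
        simp [Matrix.sum_apply, Matrix.single_apply, Matrix.mul_apply]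
        by_cases h : X j = s
        · simp [h]
        · simp [h]
      rw [this, map_sum, map_sum, Finset.sum_mul]
      refine Finset.sum_congr rfl fun i _ => ?_
      rw [map_smul, map_smul, smul_mul_assoc]
    have e2 : ∀ k ∈ (Finset.univ : Finset G), θ (ι (Matrix.single k (X j) 1)) *
        ι (Matrix.single 1 k 1) * ι a = ∑ i : G, a k i • (θ (ι (Matrix.single k (X j) 1)) *
        ι (Matrix.single 1 i 1)) := by
      intro k _
      rw [mul_assoc, ← map_mul]
      have : Matrix.single 1 k 1 * a = ∑ i : G, a k i • Matrix.single 1 i 1 := by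
        ext r s
        simp [Matrix.sum_apply, Matrix.single_apply, Matrix.mul_apply]
        by_cases h : 1 = r
        · simp [h]
        · simp [h]
      rw [this, map_sum, Finset.mul_sum]
      refine Finset.sum_congr rfl fun i _ => ?_
      rw [map_smul, mul_smul_comm]
    rw [Finset.sum_congr rfl e1, Finset.sum_congr rfl e2, Finset.sum_comm]
  · intro i j
    rw [hon, hval]
    by_cases h : i = j
    · simp [h]
    · simp [h]
  · -- the sum formula
    have hpe : ∀ x, star (ev ι θ x) * ι 1 = (Real.sqrt 2 : ℂ) • ∑ k : G,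
        ι (Matrix.single k 1 1 * kr X (Matrix.single x k 1)) := by
      intro x
      rw [hst, smul_mul_assoc, Finset.sum_mul]
      congr 1
      refine Finset.sum_congr rfl fun k _ => ?_
      rw [map_mul, ← hT, ← mul_assoc, ← mul_assoc, h1r]
    have hpe2 : ∀ j, star (ev ι θ (X j)) * ι 1 = (1 / (Real.sqrt 2 : ℂ)) • ι (lam (X j)) := by
      intro j
      rw [hpe, ← map_sum, ← map_smul, ← map_smul]
      congr 1
      ext r s
      rw [Matrix.smul_apply, Matrix.sum_apply, Finset.sum_eq_single r]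
      · rw [Matrix.mul_apply, Finset.sum_eq_single 1]
        · unfold kr
          rw [Matrix.smul_apply, Matrix.sum_apply, Finset.sum_eq_single j]
          · rw [Matrix.mul_apply, Finset.sum_eq_single r]
            · rw [Matrix.mul_apply, Finset.sum_eq_single (X j)]
              · rw [Matrix.conjTranspose_apply, Matrix.smul_apply, lam_apply, lam_apply]
                simp only [Matrix.single_apply, smul_eq_mul]
                by_cases h : r = X j * s
                · simp [h]
                  field_simp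
                  rw [pow_two, hs]
                · simp [h]
              · intro b _ hb
                rw [Matrix.conjTranspose_apply, lam_apply]
                simp [hb]
              · simp
            · intro b _ hb
              rw [Matrix.mul_apply, Finset.sum_eq_zero, zero_mul]
              intro c _
              rw [Matrix.single_apply, if_neg (fun h => hb h.2.symm), mul_zero]
            · simp
          · intro c _ hc
            rw [Matrix.mul_apply, Finset.sum_eq_zero]
            intro b _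
            rw [Matrix.mul_apply, Finset.sum_eq_zero, zero_mul]
            intro d _
            rw [Matrix.conjTranspose_apply, lam_apply, Matrix.single_apply]
            by_cases h1 : d = X c * 1
            · rw [if_neg (c := X j = d ∧ r = b), mul_zero]
              rintro ⟨h2, -⟩
              rw [← h2, mul_one] at h1
              exact hc (hX h1).symm
            · rw [if_neg h1]; simp
          · simp
        · intro b _ hb
          rw [Matrix.single_apply, if_neg (fun h => hb h.2.symm), zero_mul]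
        · simp
      · intro b _ hb
        rw [Matrix.mul_apply, Finset.sum_eq_zero]
        intro c _
        rw [Matrix.single_apply, if_neg (fun h => hb h.1), zero_mul]
      · simp
    have hp : star (ι 1) = ι (1 : Matrix G G ℂ) := by rw [← map_star, star_one]
    have hpp : ι 1 * ι 1 = ι (1 : Matrix G G ℂ) := h1l 1
    have hc2 : (1 / (Real.sqrt 2 : ℂ)) * (1 / (Real.sqrt 2 : ℂ)) = 1 / 2 := by
      rw [div_mul_div_comm, hs]; norm_num
    have hcs : star (1 / (Real.sqrt 2 : ℂ)) = 1 / (Real.sqrt 2 : ℂ) := by simp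
    have hll : ∀ j, star (ι (lam (X j))) * ι (lam (X j)) = ι 1 := by
      intro j
      rw [← map_star, ← map_mul, Matrix.star_eq_conjTranspose, lam_conj, lam_mul]
      simp [lam_one]
    set S : R := ∑ j, (1 / (Real.sqrt 2 : ℂ)) • (ev ι θ (X j) * ι (lam (X j))) with hS
    have hstS : star S = ∑ j, (1 / (Real.sqrt 2 : ℂ)) • (star (ι (lam (X j))) *
        star (ev ι θ (X j))) := by
      rw [hS, star_sum]
      refine Finset.sum_congr rfl fun j _ => ?_
      rw [star_smul, hcs, star_mul]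
    have h1 : star S * ι 1 = ι 1 := by
      rw [hstS, Finset.sum_mul]
      have : ∀ j ∈ (Finset.univ : Finset (Fin 2)), (1 / (Real.sqrt 2 : ℂ)) •
          (star (ι (lam (X j))) * star (ev ι θ (X j))) * ι 1 = (1 / 2 : ℂ) • ι 1 := by
        intro j _
        rw [smul_mul_assoc, mul_assoc, hpe2, mul_smul_comm, smul_smul, hc2, hll]
      rw [Finset.sum_congr rfl this, Fin.sum_univ_two, ← add_smul]
      norm_num
    have h2 : star S * S = ι 1 := by
      rw [hstS, hS, Finset.sum_mul_sum]
      have hon' : ∀ i j, star (ev ι θ (X i)) * ev ι θ (X j) = if i = j then ι 1 else 0 := by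
        intro i j
        rw [hon, hval]
        by_cases h : i = j
        · simp [h]
        · simp [h]
      have : ∀ i ∈ (Finset.univ : Finset (Fin 2)), ∑ j, (1 / (Real.sqrt 2 : ℂ)) •
          (star (ι (lam (X i))) * star (ev ι θ (X i))) *
          (1 / (Real.sqrt 2 : ℂ)) • (ev ι θ (X j) * ι (lam (X j))) = (1 / 2 : ℂ) • ι 1 := by
        intro i _
        rw [Finset.sum_eq_single i]
        · rw [smul_mul_smul_comm, hc2, mul_assoc, ← mul_assoc (star (ev ι θ (X i))), hon',
            if_pos rfl, h1l, hll]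
        · intro j _ hj
          rw [smul_mul_smul_comm, mul_assoc, ← mul_assoc (star (ev ι θ (X i))), hon',
            if_neg (Ne.symm hj)]
          simp
        · simp
      rw [Finset.sum_congr rfl this, Fin.sum_univ_two, ← add_smul]
      norm_num
    have h3 : ι 1 * S = ι 1 := by
      have := congrArg star h1
      rwa [star_mul, star_star, hp] at this
    have h4 : star (ι 1 - S) * (ι 1 - S) = 0 := by
      rw [star_sub, hp, sub_mul, mul_sub, mul_sub, hpp, h1, h2, h3]
      simp
    exact sub_eq_zero.1 (hprop _ h4)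


/-- an intertwiner system absorbs the image of the unit -/
lemma IS.abl {ι : Matrix G G ℂ →⋆ₙₐ[ℂ] R} {θ : R →⋆ₙₐ[ℂ] R} {X : Fin 2 → G}
    {e : Fin 2 → R} (h : IS ι θ X e) (j : Fin 2) : θ (ι 1) * e j = e j := by
  rw [h.tw, h.ab]

lemma IS.abp {ι : Matrix G G ℂ →⋆ₙₐ[ℂ] R} {θ : R →⋆ₙₐ[ℂ] R} {X : Fin 2 → G}
    {e : Fin 2 → R} (h : IS ι θ X e) : θ (ι 1) * ι 1 = ι 1 := by
  have h1 : θ (ι 1) * ι 1 = θ (ι 1) * ∑ j, (1 / (Real.sqrt 2 : ℂ)) • (e j * ι (lam (X j))) :=
    congrArg (θ (ι 1) * ·) h.su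
  refine h1.trans (Eq.trans ?_ h.su.symm)
  rw [Finset.mul_sum]
  refine Finset.sum_congr rfl fun j _ => ?_
  rw [mul_smul_comm, ← mul_assoc, h.abl]

/-- Braiding relation. -/
lemma flip (ι : Matrix G G ℂ →⋆ₙₐ[ℂ] R) (hι : Function.Injective ι)
    (hcor : ∀ r : R, ι 1 * r * ι 1 = r → ∃ a, r = ι a)
    (hprop : ∀ x : R, star x * x = 0 → x = 0)
    (θ₁ θ₂ : R →⋆ₙₐ[ℂ] R) (hcom : ∀ r, θ₁ (θ₂ r) = θ₂ (θ₁ r))
    (X Y : Fin 2 → G) (hB : Braid X Y) (e f : Fin 2 → R)
    (he : IS ι θ₁ X e) (hf : IS ι θ₂ Y f) (a b b' a' : Fin 2)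
    (hab : X a * Y b = Y b' * X a') :
    θ₂ (e a) * f b = θ₁ (f b') * e a' := by
  have hs : (Real.sqrt 2 : ℂ) * (Real.sqrt 2 : ℂ) = 2 := by
    rw [← Complex.ofReal_mul, Real.mul_self_sqrt (by norm_num)]; norm_num
  have hc2 : (1 / (Real.sqrt 2 : ℂ)) * (1 / (Real.sqrt 2 : ℂ)) = 1 / 2 := by
    rw [div_mul_div_comm, hs]; norm_num
  have hp : star (ι 1) = ι (1 : Matrix G G ℂ) := by rw [← map_star, star_one]
  have h1l : ∀ a : Matrix G G ℂ, ι 1 * ι a = ι a := by
    intro a; rw [← map_mul, one_mul]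
  have h1r : ∀ a : Matrix G G ℂ, ι a * ι 1 = ι a := by
    intro a; rw [← map_mul, mul_one]
  -- orthonormality
  have hon : ∀ (θ θ' : R →⋆ₙₐ[ℂ] R) (X Y : Fin 2 → G) (e f : Fin 2 → R), IS ι θ X e →
      IS ι θ' Y f → ∀ i j i' j', star (θ' (e i) * f j) * (θ' (e i') * f j') =
      if i = i' then (if j = j' then ι 1 else 0) else 0 := by
    intro θ θ' X Y e f he hf i j i' j'
    rw [star_mul, ← map_star, mul_assoc, ← mul_assoc (θ' _) (θ' _), ← map_mul, he.on]
    by_cases h : i = i'
    · rw [if_pos h, if_pos h, hf.abl, hf.on]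
    · rw [if_neg h, if_neg h]; simp
  have hsum : ∀ (θ θ' : R →⋆ₙₐ[ℂ] R) (X Y : Fin 2 → G) (e f : Fin 2 → R), IS ι θ X e →
      IS ι θ' Y f → ι 1 = ∑ i, ∑ j, (1 / 2 : ℂ) • (θ' (e i) * f j * ι (lam (X i * Y j))) := by
    intro θ θ' X Y e f he hf
    have h0 : ι 1 = θ' (ι 1) * ι 1 := hf.abp.symm
    rw [h0]
    conv_lhs => rw [he.su]
    rw [map_sum, ← he.su, hf.su, Finset.sum_mul_sum]
    refine Finset.sum_congr rfl fun i _ => Finset.sum_congr rfl fun j _ => ?_
    rw [map_smul, smul_mul_smul_comm, hc2, map_mul, mul_assoc, ← mul_assoc (θ' (ι _)), hf.tw,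
      ← lam_mul, map_mul]
    simp only [mul_assoc]
  have htw : ∀ (θ θ' : R →⋆ₙₐ[ℂ] R) (X Y : Fin 2 → G) (e f : Fin 2 → R), IS ι θ X e →
      IS ι θ' Y f → ∀ m i j, θ' (θ (ι m)) * (θ' (e i) * f j) = (θ' (e i) * f j) * ι m := by
    intro θ θ' X Y e f he hf m i j
    rw [← mul_assoc, ← map_mul, he.tw, map_mul, mul_assoc, hf.tw, mul_assoc]
  -- scalar products
  have hsc : ∀ i j, ∃ c : ℂ, star (θ₂ (e a) * f b) * (θ₁ (f j) * e i) = c • ι 1 := by
    intro i j
    have hu1 : (θ₂ (e a) * f b) * ι 1 = θ₂ (e a) * f b := by rw [mul_assoc, hf.ab]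
    have hv1 : (θ₁ (f j) * e i) * ι 1 = θ₁ (f j) * e i := by rw [mul_assoc, he.ab]
    obtain ⟨m, hm⟩ := hcor (star (θ₂ (e a) * f b) * (θ₁ (f j) * e i)) (by
      rw [mul_assoc, mul_assoc, hv1, ← mul_assoc, ← hp, ← star_mul, hu1])
    have hcomm : ∀ n : Matrix G G ℂ, m * n = n * m := by
      intro n
      apply hι
      have h2 := congrArg star (htw θ₁ θ₂ X Y e f he hf (star n) a b)
      rw [star_mul, star_mul (_ * _), ← map_star, ← map_star, ← map_star, star_star] at h2
      calc ι (m * n) = star (θ₂ (e a) * f b) * (θ₁ (f j) * e i) * ι n := by rw [map_mul, hm]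
        _ = star (θ₂ (e a) * f b) * (θ₁ (θ₂ (ι n)) * (θ₁ (f j) * e i)) := by
            rw [mul_assoc, htw θ₂ θ₁ Y X f e hf he]
        _ = star (θ₂ (e a) * f b) * θ₂ (θ₁ (ι n)) * (θ₁ (f j) * e i) := by
            rw [hcom, mul_assoc (star _)]
        _ = ι n * star (θ₂ (e a) * f b) * (θ₁ (f j) * e i) := by rw [h2]
        _ = ι (n * m) := by rw [mul_assoc, map_mul, hm]
    obtain ⟨c, hc⟩ : ∃ c : ℂ, m = c • (1 : Matrix G G ℂ) := by
      have : m ∈ Set.range (Matrix.scalar G : ℂ → Matrix G G ℂ) := by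
        apply Matrix.mem_range_scalar_of_commute_single
        intro i j _
        exact (hcomm _).symm
      obtain ⟨c, hc⟩ := this
      refine ⟨c, ?_⟩
      rw [← hc]
      ext r s
      simp [Matrix.diagonal_apply, Matrix.one_apply]
    exact ⟨c, by rw [hm, hc, map_smul]⟩
  choose c hc using hsc
  have hval : c a' b' = 1 := by
    have e1 : (1 / 2 : ℂ) • ι (lam (X a * Y b)) = star (θ₂ (e a) * f b) * ι 1 := by
      rw [hsum θ₁ θ₂ X Y e f he hf, Finset.mul_sum, Finset.sum_eq_single a,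
        Finset.mul_sum, Finset.sum_eq_single b]
      · rw [mul_smul_comm, ← mul_assoc, hon θ₁ θ₂ X Y e f he hf, if_pos rfl, if_pos rfl, h1l]
      · intro j _ hj
        rw [mul_smul_comm, ← mul_assoc, hon θ₁ θ₂ X Y e f he hf, if_pos rfl,
          if_neg (Ne.symm hj)]
        simp
      · simp
      · intro i _ hi
        rw [Finset.mul_sum, Finset.sum_eq_zero]
        intro j _
        rw [mul_smul_comm, ← mul_assoc, hon θ₁ θ₂ X Y e f he hf, if_neg (Ne.symm hi)]
        simp
      · simp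
    have e2 : star (θ₂ (e a) * f b) * ι 1 = ι (∑ j, ∑ i, ((1 / 2 : ℂ) * c i j) •
        lam (Y j * X i)) := by
      conv_lhs => rw [hsum θ₂ θ₁ Y X f e hf he]
      rw [map_sum, Finset.mul_sum]
      refine Finset.sum_congr rfl fun j _ => ?_
      rw [map_sum, Finset.mul_sum]
      refine Finset.sum_congr rfl fun i _ => ?_
      rw [mul_smul_comm, ← mul_assoc, hc, smul_mul_assoc, h1l, smul_smul, map_smul]
    rw [e2, ← map_smul] at e1
    have e3 := hι e1
    have e4 := congrFun (congrFun e3 (Y b' * X a')) 1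
    rw [Matrix.smul_apply, Matrix.sum_apply, Finset.sum_eq_single b', Matrix.sum_apply,
      Finset.sum_eq_single a', Matrix.smul_apply, lam_apply, lam_apply, mul_one, mul_one, hab,
      if_pos rfl] at e4
    · simp only [smul_eq_mul, mul_one] at e4
      have : (1 / 2 : ℂ) ≠ 0 := by norm_num
      have e5 : (1 / 2 : ℂ) * 1 = (1 / 2 : ℂ) * c a' b' := by rw [mul_one]; exact e4
      exact (mul_left_cancel₀ this e5).symm
    · intro i _ hi
      rw [Matrix.smul_apply, lam_apply, if_neg, smul_zero]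
      rw [mul_one]
      intro h
      exact hi (hB.inj _ _ _ _ h).2.symm
    · simp
    · intro j _ hj
      rw [Matrix.sum_apply, Finset.sum_eq_zero]
      intro i _
      rw [Matrix.smul_apply, lam_apply, if_neg, smul_zero]
      rw [mul_one]
      intro h
      exact hj (hB.inj _ _ _ _ h).1.symm
    · simp
  have huv : star (θ₂ (e a) * f b) * (θ₁ (f b') * e a') = ι 1 := by
    rw [hc, hval, one_smul]
  have hvu : star (θ₁ (f b') * e a') * (θ₂ (e a) * f b) = ι 1 := by
    have := congrArg star huv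
    rwa [star_mul, star_star, hp] at this
  have huu := hon θ₁ θ₂ X Y e f he hf a b a b
  have hvv := hon θ₂ θ₁ Y X f e hf he b' a' b' a'
  rw [if_pos rfl, if_pos rfl] at huu hvv
  have h4 : star (θ₂ (e a) * f b - θ₁ (f b') * e a') * (θ₂ (e a) * f b - θ₁ (f b') * e a') = 0 := by
    rw [star_sub, sub_mul, mul_sub, mul_sub, huu, huv, hvu, hvv]
    simp
  exact sub_eq_zero.1 (hprop _ h4)

/-- Cubic incompatibility rules out a dilation. -/
theorem no_dil (ι : Matrix G G ℂ →⋆ₙₐ[ℂ] R) (hι : Function.Injective ι) (hne : ι 1 ≠ 0)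
    (hcor : ∀ r : R, ι 1 * r * ι 1 = r → ∃ a, r = ι a)
    (hprop : ∀ x : R, star x * x = 0 → x = 0)
    (θ : Fin 3 → (R →⋆ₙₐ[ℂ] R)) (hcom : ∀ i j r, θ i (θ j r) = θ j (θ i r))
    (X Y Z : Fin 2 → G) (hX : Function.Injective X) (hY : Function.Injective Y)
    (hZ : Function.Injective Z) (hXY : Braid X Y) (hXZ : Braid X Z) (hYZ : Braid Y Z)
    (hT0 : ∀ a, ι 1 * θ 0 (ι a) * ι 1 = ι (kr X a))
    (hT1 : ∀ a, ι 1 * θ 1 (ι a) * ι 1 = ι (kr Y a))
    (hT2 : ∀ a, ι 1 * θ 2 (ι a) * ι 1 = ι (kr Z a))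
    (r1 : X 0 * Y 0 = Y 0 * X 0) (r2 : X 0 * Z 0 = Z 1 * X 0) (r3 : Y 0 * Z 1 = Z 0 * Y 0)
    (s1 : Y 0 * Z 0 = Z 0 * Y 1) (s3 : X 0 * Y 1 = Y 1 * X 1) : False := by
  have he := exists_IS ι (θ 0) X hX hprop hT0
  have hf := exists_IS ι (θ 1) Y hY hprop hT1
  have hh := exists_IS ι (θ 2) Z hZ hprop hT2
  generalize (fun j => ev ι (θ 0) (X j)) = e at he
  generalize (fun j => ev ι (θ 1) (Y j)) = f at hf
  generalize (fun j => ev ι (θ 2) (Z j)) = h at hh
  have R1 := flip ι hι hcor hprop (θ 0) (θ 1) (hcom 0 1) X Y hXY e f he hf 0 0 0 0 r1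
  have R2 := flip ι hι hcor hprop (θ 0) (θ 2) (hcom 0 2) X Z hXZ e h he hh 0 0 1 0 r2
  have R3 := flip ι hι hcor hprop (θ 1) (θ 2) (hcom 1 2) Y Z hYZ f h hf hh 0 1 0 0 r3
  have S1 := flip ι hι hcor hprop (θ 1) (θ 2) (hcom 1 2) Y Z hYZ f h hf hh 0 0 0 1 s1
  have S3 := flip ι hι hcor hprop (θ 0) (θ 1) (hcom 0 1) X Y hXY e f he hf 0 1 1 1 s3
  have W1 : θ 2 (θ 1 (e 0) * f 0) * h 0 = θ 0 (θ 1 (h 0) * f 0) * e 0 := by
    rw [R1, map_mul, mul_assoc, R2, hcom 2 0, ← mul_assoc, ← map_mul, R3]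
  have W2 : θ 2 (θ 1 (e 0) * f 0) * h 0 = θ 0 (θ 1 (h 1) * f 1) * e 1 := by
    rw [map_mul, mul_assoc, S1, hcom 2 1, ← mul_assoc, ← map_mul, R2, map_mul, mul_assoc, S3,
      hcom 1 0, ← mul_assoc, ← map_mul]
  have W : θ 0 (θ 1 (h 0) * f 0) * e 0 = θ 0 (θ 1 (h 1) * f 1) * e 1 := W1.symm.trans W2
  have q1 : star (θ 0 (θ 1 (h 0) * f 0) * e 0) * (θ 0 (θ 1 (h 0) * f 0) * e 0) = ι 1 := by
    rw [star_mul, ← map_star, mul_assoc, ← mul_assoc (θ 0 _) (θ 0 _), ← map_mul, star_mul,
      ← map_star, mul_assoc (star (f 0)), ← mul_assoc (θ 1 _) (θ 1 _), ← map_mul, hh.on,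
      if_pos rfl, hf.abl, hf.on, if_pos rfl, he.abl, he.on, if_pos rfl]
  have q2 : star (θ 0 (θ 1 (h 0) * f 0) * e 0) * (θ 0 (θ 1 (h 1) * f 1) * e 1) = 0 := by
    rw [star_mul, ← map_star, mul_assoc, ← mul_assoc (θ 0 _) (θ 0 _), ← map_mul, star_mul,
      ← map_star, mul_assoc (star (f 0)), ← mul_assoc (θ 1 _) (θ 1 _), ← map_mul, hh.on,
      if_neg (by decide)]
    simp
  rw [← W, q1] at q2
  exact hne q2

end Pool.Agent.V11111.Dil
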